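import Pool.Agent.H74.Tri.Iface

set_option autoImplicit false

/-! MP_2e6055, module TOP: NE, Irr, Det. -/

namespace Pool.Agent.H50.Tri.TOP

open Pool.Agent.H7.UC Pool.Agent.H74.Tri

theorem ne : NE := by
  intro W ω c hc p hp hl hr n
  induction n with
  | zero => exact ⟨hl, hr⟩
  | succ n ih =>
    obtain ⟨h1, h2⟩ := ih
    have hb := hp.orb (n := n)
    have hph : ph (orb ω p n) ∉ W := by
      intro hW
      have e1 := hc _ h1 ⟨_, hW, adjF_symm (adj_hl _)⟩
      have e2 := hc _ h2 ⟨_, hW, adjF_symm (adj_hr _)⟩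
      have h3 := hb.1
      rw [e1, ← e2, hb.2] at h3
      exact absurd h3 (by decide)
    rw [orb_succ]
    cases hcol : ω (ph (orb ω p n))
    · obtain ⟨e1, e2⟩ := stp_white hcol
      rw [e1, e2]
      exact ⟨h1, hph⟩
    · obtain ⟨e1, e2⟩ := stp_black hcol
      rw [e1, e2]
      exact ⟨hph, h2⟩

theorem mem_box {m n : ℕ} {f : Fc} : f ∈ box m n ↔ (0 ≤ f.1 ∧ f.1 < m) ∧ (0 ≤ f.2 ∧ f.2 < n) := by
  unfold box
  rw [Finset.mem_product, Finset.mem_Ico, Finset.mem_Ico]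

theorem bc_neg {m n : ℕ} {ω : Fc → Bool} (h : BC m n ω) {f : Fc} (hf : f.1 < 0) : ω f = true := by
  rw [h f (fun hb => by have := (mem_box.1 hb).1.1; omega)]
  simpa using hf

theorem bc_true {m n : ℕ} {ω : Fc → Bool} (h : BC m n ω) {f : Fc} (hf : f ∉ box m n)
    (hb : ω f = true) : f.1 < 0 := by
  rw [h f hf] at hb
  simpa using hb

theorem irr_aux {m n : ℕ} {ω ω' : Fc → Bool} (hω : BC m n ω) (_hω' : BC m n ω')
    {Z : Set Fc} (hZ : ∀ f ∈ Z, f ∈ box m n ∧ f.1 ≠ (m : ℤ) - 1) (heq : ∀ f, f ∉ Z → ω f = ω' f)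
    (hj : ∀ f g, f ∉ Z → g ∉ Z → tch Z f → tch Z g → ω f = true → ω g = true →
      Jn {a | a ∉ Z ∧ ω a = true} f g) (hC : CR m n ω) : CR m n ω' := by
  obtain ⟨u, v, hu, hv, hu0, hvm, huc, hp⟩ := hC
  set S : Set Fc := {a | a ∉ Z ∧ ω a = true} with hS
  set l : Fc := (-1, u.2) with hl
  have hlb : l ∉ box m n := fun hb => by
    have h1 := (mem_box.1 hb).1.1
    rw [hl] at h1
    simp at h1
  have hlZ : l ∉ Z := fun h => hlb (hZ l h).1
  have hlS : l ∈ S := ⟨hlZ, bc_neg hω (by rw [hl]; simp)⟩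
  have hlu : adjF l u := by
    rw [adjF_iff]
    refine Or.inl ⟨?_, ?_⟩
    · rw [hl, hu0]; simp
    · rw [hl]
  -- the invariant along the path
  have inv : ∀ a, Jn {a | a ∈ box m n ∧ ω a = true} u a →
      (a ∉ Z ∧ ω a = true ∧ Jn S l a) ∨ (a ∈ Z ∧ ∃ f, f ∉ Z ∧ tch Z f ∧ ω f = true ∧ Jn S l f) := by
    intro a ha
    induction ha with
    | refl =>
      by_cases huZ : u ∈ Z
      · exact Or.inr ⟨huZ, l, hlZ, ⟨u, huZ, hlu⟩, hlS.2, Jn.refl _⟩
      · exact Or.inl ⟨huZ, huc, Jn.single ⟨huZ, huc⟩ hlu⟩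
    | @tail b c h1 h2 ih =>
      obtain ⟨⟨hcb, hcc⟩, hbc⟩ := h2
      rcases ih with ⟨i1, i2, i3⟩ | ⟨i1, f, i2, i3, i4, i5⟩
      · by_cases hcZ : c ∈ Z
        · exact Or.inr ⟨hcZ, b, i1, ⟨c, hcZ, hbc⟩, i2, i3⟩
        · exact Or.inl ⟨hcZ, hcc, i3.step ⟨hcZ, hcc⟩ hbc⟩
      · by_cases hcZ : c ∈ Z
        · exact Or.inr ⟨hcZ, f, i2, i3, i4, i5⟩
        · exact Or.inl ⟨hcZ, hcc, i5.trans (hj f c i2 hcZ i3 ⟨b, i1, adjF_symm hbc⟩ i4 hcc)⟩
  have hvZ : v ∉ Z := fun h => (hZ v h).2 hvm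
  have hlv : Jn S l v := by
    rcases inv v hp with ⟨_, _, h⟩ | ⟨h, _⟩
    · exact h
    · exact absurd h hvZ
  -- the last visit outside the box
  have key : ∀ a, Jn S l a → (a ∉ box m n ∧ a ∈ S) ∨ ∃ u', u' ∈ box m n ∧ u'.1 = 0 ∧ ω' u' = true ∧
      a ∈ box m n ∧ Jn {a | a ∈ box m n ∧ ω' a = true} u' a := by
    intro a ha
    induction ha with
    | refl => exact Or.inl ⟨hlb, hlS⟩
    | @tail b c h1 h2 ih =>
      obtain ⟨hcS, hbc⟩ := h2
      by_cases hcb : c ∈ box m n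
      · right
        have hc' : ω' c = true := by rw [← heq c hcS.1]; exact hcS.2
        rcases ih with ⟨i1, i2⟩ | ⟨u', i1, i2, i3, i4, i5⟩
        · refine ⟨c, hcb, ?_, hc', hcb, Jn.refl _⟩
          have h3 := bc_true hω i1 i2.2
          have h4 := (mem_box.1 hcb).1.1
          have h5 := (adjF_iff b c).1 hbc
          omega
        · exact ⟨u', i1, i2, i3, hcb, i5.step ⟨hcb, hc'⟩ hbc⟩
      · exact Or.inl ⟨hcb, hcS⟩
  rcases key v hlv with ⟨h, _⟩ | ⟨u', i1, i2, i3, i4, i5⟩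
  · exact absurd hv h
  · exact ⟨u', v, i1, hv, i2, hvm, i3, i5⟩

theorem irr : Irr := by
  intro m n ω ω' _ _ hω hω' Z hZ heq hj
  constructor
  · exact irr_aux hω hω' hZ heq hj
  · refine irr_aux hω' hω hZ (fun f hf => (heq f hf).symm) ?_
    intro f g hf hg h1 h2 h3 h4
    rw [← heq f hf] at h3
    rw [← heq g hg] at h4
    refine Jn.mono ?_ (hj f g hf hg h1 h2 h3 h4)
    rintro a ⟨ha1, ha2⟩
    exact ⟨ha1, by rw [← heq a ha1]; exact ha2⟩

/-- a set which is touched by white faces only does not matter -/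
theorem white_aux {m n : ℕ} {ω ω' : Fc → Bool} (hω : BC m n ω) {Z : Set Fc}
    (hZ : ∀ f ∈ Z, f ∈ box m n) (heq : ∀ f, f ∉ Z → ω f = ω' f)
    (hw : ∀ f, f ∉ Z → tch Z f → ω f = false) (hC : CR m n ω) : CR m n ω' := by
  obtain ⟨u, v, hu, hv, hu0, hvm, huc, hp⟩ := hC
  have huZ : u ∉ Z := by
    intro h
    have h1 : ((-1, u.2) : Fc) ∉ Z := fun h' => by
      have := (mem_box.1 (hZ _ h')).1.1
      simp at this
    have h2 : adjF ((-1, u.2) : Fc) u := by
      rw [adjF_iff]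
      exact Or.inl ⟨by rw [hu0]; simp, rfl⟩
    have h3 := hw _ h1 ⟨u, h, h2⟩
    rw [bc_neg hω (by simp)] at h3
    exact absurd h3 (by decide)
  have key : ∀ a, Jn {a | a ∈ box m n ∧ ω a = true} u a →
      a ∉ Z ∧ ω a = true ∧ Jn {a | a ∈ box m n ∧ ω' a = true} u a := by
    intro a ha
    induction ha with
    | refl => exact ⟨huZ, huc, Jn.refl _⟩
    | @tail b c h1 h2 ih =>
      obtain ⟨⟨hcb, hcc⟩, hbc⟩ := h2
      obtain ⟨i1, i2, i3⟩ := ih
      have hcZ : c ∉ Z := by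
        intro h
        have := hw b i1 ⟨c, h, hbc⟩
        rw [i2] at this
        exact absurd this (by decide)
      exact ⟨hcZ, hcc, i3.step ⟨hcb, by rw [← heq c hcZ]; exact hcc⟩ hbc⟩
  obtain ⟨_, _, h⟩ := key v hp
  exact ⟨u, v, hu, hv, hu0, hvm, by rw [← heq u huZ]; exact huc, h⟩

/-- the left half plane is connected -/
theorem left_conn {S : Set Fc} (hS : ∀ f : Fc, f.1 < 0 → f ∈ S) (f : Fc) (hf : f.1 < 0) :
    Jn S f (-1, 0) := by
  have h1 : ∀ (k : ℕ) (b : ℤ), Jn S (-1 - (k : ℤ), b) (-1, b) := by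
    intro k
    induction k with
    | zero => intro b; simpa using Jn.refl ((-1, b) : Fc)
    | succ k ih =>
      intro b
      refine (Jn.single (hS (-1 - (k : ℤ), b) (by simp only; omega)) ?_).trans (ih b)
      rw [adjF_iff]
      refine Or.inl ⟨?_, rfl⟩
      simp only
      push_cast
      ring
  have h2 : ∀ (k : ℕ), Jn S (-1, (k : ℤ)) (-1, 0) := by
    intro k
    induction k with
    | zero => exact Jn.refl _
    | succ k ih =>
      refine (Jn.single (hS (-1, (k : ℤ)) (by simp only; omega)) ?_).trans ih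
      rw [adjF_iff]
      refine Or.inr (Or.inr (Or.inr (Or.inl ⟨rfl, ?_⟩)))
      simp only
      push_cast
      ring
  have h3 : ∀ (k : ℕ), Jn S (-1, -(k : ℤ)) (-1, 0) := by
    intro k
    induction k with
    | zero => simpa using Jn.refl ((-1, 0) : Fc)
    | succ k ih =>
      refine (Jn.single (hS (-1, -(k : ℤ)) (by simp only; omega)) ?_).trans ih
      rw [adjF_iff]
      refine Or.inr (Or.inr (Or.inl ⟨rfl, ?_⟩))
      simp only
      push_cast
      ring
  obtain ⟨a, b⟩ := f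
  simp only at hf
  obtain ⟨k, hk⟩ := Int.eq_ofNat_of_zero_le (show 0 ≤ -1 - a by omega)
  have ha : a = -1 - (k : ℤ) := by omega
  rw [ha]
  refine (h1 k b).trans ?_
  rcases le_or_gt 0 b with hb | hb
  · obtain ⟨j, hj⟩ := Int.eq_ofNat_of_zero_le hb
    rw [hj]
    exact h2 j
  · obtain ⟨j, hj⟩ := Int.eq_ofNat_of_zero_le (show 0 ≤ -b by omega)
    have : b = -(j : ℤ) := by omega
    rw [this]
    exact h3 j

theorem det (hInt : Int2) (hInit : Init) : Det := by
  classical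
  intro m n ω ω' hm hn hω hω' N hN hRev
  obtain ⟨hSt, hTip⟩ := hInit m n ω hm hn hω
  set U := box m n with hU
  set R := Rev ω p0 N with hR
  set T : Finset Fc := U.filter (fun f => f ∉ R) with hT
  have hTm : ∀ f, f ∈ T ↔ f ∈ U ∧ f ∉ R := fun f => Finset.mem_filter
  -- one colour around every component
  have one : ∀ z ∈ T, ∀ f g, f ∉ comp T z → g ∉ comp T z → tch ↑(comp T z) f →
      tch ↑(comp T z) g → ω f = ω g := by
    intro z hz
    refine hInt U ω hSt p0 N hTip hN (comp T z) ?_ ?_ ?_ ?_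
    · intro f hf
      exact ((hTm f).1 (comp_sub _ _ hf)).1
    · intro f hf
      exact ((hTm f).1 (comp_sub _ _ hf)).2
    · intro f hf g hg
      exact comp_conn hz hf hg
    · intro f hfU hfW hft
      by_contra hfR
      obtain ⟨g, hg, hfg⟩ := hft
      exact hfW (comp_adj (by exact_mod_cast hg) ((hTm f).2 ⟨hfU, hfR⟩) (adjF_symm hfg))
  -- black-touched components
  set Zb : Set Fc := {f | f ∈ T ∧ ∃ g, g ∉ comp T f ∧ tch ↑(comp T f) g ∧ ω g = true} with hZb
  have hZbT : ∀ f ∈ Zb, f ∈ T := fun f hf => hf.1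
  have same : ∀ f h, f ∈ T → h ∈ T → adjF f h → comp T f = comp T h := by
    intro f h hf hh hfh
    exact comp_eq_of_mem hh (comp_adj (mem_comp_self hh) hf (adjF_symm hfh))
  have hZcol : ∀ f ∈ Zb, f ∈ box m n ∧ f.1 ≠ (m : ℤ) - 1 := by
    rintro f ⟨hfT, g, hg1, hg2, hg3⟩
    have hfU := ((hTm f).1 hfT).1
    refine ⟨hfU, ?_⟩
    intro hfm
    have hx : ((m : ℤ), f.2) ∉ U := fun h => by
      have := (mem_box.1 h).1.2
      simp at this
    have hxW : ((m : ℤ), f.2) ∉ comp T f := fun h => hx ((hTm _).1 (comp_sub _ _ h)).1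
    have hadj : adjF ((m : ℤ), f.2) f := by
      rw [adjF_iff]
      exact Or.inr (Or.inl ⟨hfm, rfl⟩)
    have h1 := one f hfT _ g hxW hg1 ⟨f, by exact_mod_cast mem_comp_self hfT, hadj⟩ hg2
    rw [hg3, hω _ hx] at h1
    have h2 : ¬ ((m : ℤ) < 0) := by omega
    simp [h2] at h1
  -- black faces of the revealed set are joined to the left side
  set S : Set Fc := {a | a ∉ Zb ∧ ω a = true} with hS
  have hleft : ∀ f : Fc, f.1 < 0 → f ∈ S := by
    intro f hf
    refine ⟨fun h => ?_, bc_neg hω hf⟩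
    have := (mem_box.1 (hZcol f h).1).1.1
    omega
  have hRS : ∀ i, i ≤ N → pl (orb ω p0 i) ∈ S ∧ Jn S (-1, 0) (pl (orb ω p0 i)) := by
    intro i
    induction i with
    | zero =>
      intro _
      have h1 : pl (orb ω p0 0) = (-1, 0) := rfl
      rw [h1]
      exact ⟨hleft _ (by simp), Jn.refl _⟩
    | succ i ih =>
      intro hi
      obtain ⟨i1, i2⟩ := ih (by omega)
      have hb : Bi ω (orb ω p0 (i + 1)) := hTip.2.2.2.orb (i + 1)
      have hmem : pl (orb ω p0 (i + 1)) ∈ S := by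
        refine ⟨fun h => ?_, hb.1⟩
        exact ((hTm _).1 (hZbT _ h)).2 ⟨i + 1, hi, Or.inl rfl⟩
      refine ⟨hmem, ?_⟩
      rw [orb_succ] at hmem ⊢
      cases hcol : ω (ph (orb ω p0 i))
      · rw [(stp_white hcol).1]
        exact i2
      · rw [(stp_black hcol).1] at hmem ⊢
        exact i2.step hmem (adjF_symm (adj_hl _))
  have toBase : ∀ f, f ∉ Zb → tch Zb f → ω f = true → f ∈ S ∧ Jn S (-1, 0) f := by
    intro f hf hft hfc
    refine ⟨⟨hf, hfc⟩, ?_⟩
    by_cases hfU : f ∈ U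
    · have hfR : f ∈ R := by
        by_contra hfR
        obtain ⟨h, hh, hfh⟩ := hft
        have hfT : f ∈ T := (hTm f).2 ⟨hfU, hfR⟩
        have hhT : h ∈ T := hZbT h hh
        apply hf
        refine ⟨hfT, ?_⟩
        rw [same f h hfT hhT hfh]
        exact hh.2
      obtain ⟨i, hi, hfi | hfi⟩ := hfR
      · rw [hfi]
        exact (hRS i hi).2
      · exfalso
        have := (hTip.2.2.2.orb i).2
        rw [← hfi, hfc] at this
        exact absurd this (by decide)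
    · have h1 := bc_true hω hfU hfc
      exact (left_conn hleft f h1).symm (hleft f h1)
  have hbase : ((-1, 0) : Fc) ∈ S := hleft _ (by simp)
  set ω1 : Fc → Bool := fun f => if f ∈ Zb then ω' f else ω f with hω1
  have hB1 : BC m n ω1 := by
    intro f hf
    show (if f ∈ Zb then ω' f else ω f) = _
    rw [if_neg (fun h => hf (hZcol f h).1)]
    exact hω f hf
  have step1 : CR m n ω ↔ CR m n ω1 := by
    refine irr m n ω ω1 hm hn hω hB1 Zb hZcol ?_ ?_
    · intro f hf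
      show ω f = if f ∈ Zb then ω' f else ω f
      rw [if_neg hf]
    · intro f g hf hg h1 h2 h3 h4
      obtain ⟨a1, a2⟩ := toBase f hf h1 h3
      obtain ⟨b1, b2⟩ := toBase g hg h2 h4
      exact (a2.symm hbase).trans b2
  -- the remaining components
  set Tw : Set Fc := {f | f ∈ T ∧ f ∉ Zb} with hTw
  have hTwU : ∀ f ∈ Tw, f ∈ box m n := fun f hf => ((hTm f).1 hf.1).1
  have heq1 : ∀ f, f ∉ Tw → ω1 f = ω' f := by
    intro f hf
    show (if f ∈ Zb then ω' f else ω f) = ω' f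
    by_cases h1 : f ∈ Zb
    · rw [if_pos h1]
    · rw [if_neg h1]
      by_cases h2 : f ∈ U
      · have h3 : f ∈ R := by
          by_contra h3
          exact hf ⟨(hTm f).2 ⟨h2, h3⟩, h1⟩
        exact hRev f h3
      · rw [hω f h2, hω' f h2]
  have hwt : ∀ f, f ∉ Tw → tch Tw f → ω f = false ∧ f ∉ T := by
    intro f hf hft
    obtain ⟨h, hh, hfh⟩ := hft
    have hfT : f ∉ T := by
      intro hfT
      apply hf
      refine ⟨hfT, fun hfZ => hh.2 ⟨hh.1, ?_⟩⟩
      rw [← same f h hfT hh.1 hfh]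
      exact hfZ.2
    refine ⟨?_, hfT⟩
    by_contra hc
    have hc' : ω f = true := by simpa using hc
    exact hh.2 ⟨hh.1, f, fun h' => hfT (comp_sub _ _ h'),
      ⟨h, by exact_mod_cast mem_comp_self hh.1, hfh⟩, hc'⟩
  have hw1 : ∀ f, f ∉ Tw → tch Tw f → ω1 f = false := by
    intro f hf hft
    obtain ⟨h1, h2⟩ := hwt f hf hft
    show (if f ∈ Zb then ω' f else ω f) = false
    rw [if_neg (fun h => h2 (hZbT f h))]
    exact h1
  rw [step1]
  constructor
  · exact white_aux hB1 hTwU heq1 hw1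
  · refine white_aux hω' hTwU (fun f hf => (heq1 f hf).symm) ?_
    intro f hf hft
    rw [← heq1 f hf]
    exact hw1 f hf hft

end Pool.Agent.H50.Tri.TOP
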